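import Pool.Agent.Helper884.IC.Compl
import Pool.Agent.W540.BE.Rep

/-! Real class functions of finite groups. -/

set_option autoImplicit false

namespace Pool.Agent.TH652.ART

open ComplexConjugate

variable {G : Type} [Group G]

/-- the union of the conjugacy classes of `g` and `g⁻¹` -/
def cls (g : G) : Set G := {x | IsConj g x ∨ IsConj g x⁻¹}

open Classical in
/-- `1 / |cls g|` on `cls g` and `0` elsewhere -/
noncomputable def cw (g x : G) : ℝ := if x ∈ cls g then 1 / (Nat.card (cls g) : ℝ) else 0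

theorem isConj_inv_iff {a b : G} : IsConj a b⁻¹ ↔ IsConj a⁻¹ b := by
  constructor
  · intro h
    obtain ⟨c, hc⟩ := isConj_iff.1 h
    refine isConj_iff.2 ⟨c, ?_⟩
    have h2 := congrArg (fun x => x⁻¹) hc
    simp only [mul_inv_rev, inv_inv] at h2
    rw [← h2]
    group
  · intro h
    obtain ⟨c, hc⟩ := isConj_iff.1 h
    refine isConj_iff.2 ⟨c, ?_⟩
    rw [← hc]
    group

theorem self_mem (g : G) : g ∈ cls g := Or.inl (IsConj.refl g)

theorem mem_symm {g x : G} (h : x ∈ cls g) : g ∈ cls x := by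
  rcases h with h | h
  · exact Or.inl h.symm
  · exact Or.inr (isConj_inv_iff.2 h.symm)

theorem mem_trans {g x y : G} (h : x ∈ cls g) (h' : y ∈ cls x) : y ∈ cls g := by
  rcases h with h | h <;> rcases h' with h' | h'
  · exact Or.inl (h.trans h')
  · exact Or.inr (h.trans h')
  · refine Or.inr (h.trans ?_)
    rw [isConj_inv_iff, inv_inv]
    exact h'
  · refine Or.inl (h.trans ?_)
    rw [isConj_inv_iff] at h'
    exact h'

theorem cls_eq {g x : G} (h : x ∈ cls g) : cls x = cls g :=
  Set.ext fun _ => ⟨fun hy => mem_trans h hy, fun hy => mem_trans (mem_symm h) hy⟩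

theorem cw_symm (g x : G) : cw g x = cw x g := by
  unfold cw
  by_cases h : x ∈ cls g
  · rw [if_pos h, if_pos (mem_symm h), cls_eq h]
  · rw [if_neg h, if_neg fun h' => h (mem_symm h')]

theorem inv_mem {g x : G} (h : x ∈ cls g) : x⁻¹ ∈ cls g := by
  refine mem_trans h (Or.inr ?_)
  rw [inv_inv]

theorem conj_mem {g x : G} (y : G) (h : x ∈ cls g) : y * x * y⁻¹ ∈ cls g :=
  mem_trans h (Or.inl (isConj_iff.2 ⟨y, rfl⟩))

theorem cw_inv (g x : G) : cw g x⁻¹ = cw g x := by
  unfold cw
  by_cases h : x ∈ cls g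
  · rw [if_pos h, if_pos (inv_mem h)]
  · rw [if_neg h, if_neg]
    intro h'
    have := inv_mem h'
    rw [inv_inv] at this
    exact h this

theorem cw_conj (g x y : G) : cw g (y * x * y⁻¹) = cw g x := by
  unfold cw
  by_cases h : x ∈ cls g
  · rw [if_pos h, if_pos (conj_mem y h)]
  · rw [if_neg h, if_neg]
    intro h'
    have h2 := conj_mem y⁻¹ h'
    have h3 : y⁻¹ * (y * x * y⁻¹) * y⁻¹⁻¹ = x := by group
    rw [h3] at h2
    exact h h2

theorem abs_cw_le [Finite G] (g x : G) : |cw g x| ≤ 1 := by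
  unfold cw
  have h1 : 0 < Nat.card (cls g) := by
    have : Nonempty (cls g) := ⟨⟨g, self_mem g⟩⟩
    exact Nat.card_pos
  have h2 : (1 : ℝ) ≤ Nat.card (cls g) := by exact_mod_cast h1
  split_ifs
  · rw [abs_of_pos (by positivity), div_le_one (by linarith)]
    exact h2
  · simp

section
variable [Fintype G]

theorem sum_cw (g : G) : ∑ x, cw g x = 1 := by
  classical
  unfold cw
  rw [Finset.sum_ite, Finset.sum_const_zero, add_zero, Finset.sum_const, nsmul_eq_mul]
  have h1 : (Finset.univ.filter fun x => x ∈ cls g).card = Nat.card (cls g) := by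
    rw [Nat.card_eq_fintype_card, Fintype.card_subtype]
  have h2 : 0 < Nat.card (cls g) := by
    have : Nonempty (cls g) := ⟨⟨g, self_mem g⟩⟩
    exact Nat.card_pos
  have h3 : (Nat.card (cls g) : ℝ) ≠ 0 := by exact_mod_cast h2.ne'
  rw [h1, mul_one_div_cancel h3]

/-- the mean value over a class -/
theorem mean_cw (f : G → ℝ) (hf : ∀ x y, f (y * x * y⁻¹) = f x) (hi : ∀ x, f x⁻¹ = f x) (g : G) :
    ∑ x, cw g x * f x = f g := by
  have h1 : ∀ x, cw g x * f x = cw g x * f g := by
    intro x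
    by_cases h : x ∈ cls g
    · congr 1
      rcases h with h | h
      · obtain ⟨c, hc⟩ := isConj_iff.1 h
        rw [← hc, hf]
      · obtain ⟨c, hc⟩ := isConj_iff.1 h
        rw [← hi, ← hc, hf]
    · unfold cw
      rw [if_neg h, zero_mul, zero_mul]
  rw [Finset.sum_congr rfl fun x _ => h1 x, ← Finset.sum_mul, sum_cw, one_mul]

theorem mean_cw' (f : G → ℝ) (hf : ∀ x y, f (y * x * y⁻¹) = f x) (hi : ∀ x, f x⁻¹ = f x) (x : G) :
    ∑ g, f g * cw g x = f x := by
  rw [← mean_cw f hf hi x]
  refine Finset.sum_congr rfl fun g _ => ?_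
  rw [cw_symm, mul_comm]

end

/-- the character at the inverse -/
theorem char_inv [Finite G] {m : ℕ} (ρ : Representation ℂ G (Fin m → ℂ)) (g : G) :
    ρ.character g⁻¹ = conj (ρ.character g) := by
  refine (Pool.Agent.W540.BE.trace_conj (ρ g) (ρ g⁻¹) ?_ (m := Nat.card G) Nat.card_pos ?_).symm
  · rw [← map_mul, mul_inv_cancel, map_one]
  · rw [← map_pow, pow_card_eq_one', map_one]

/-- the character of a rational representation at the inverse -/
theorem rchar_inv [Finite G] {V : Type} [AddCommGroup V] [Module ℚ V] [FiniteDimensional ℚ V]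
    (ρ : Representation ℚ G V) (g : G) : ρ.character g⁻¹ = ρ.character g := by
  set b := Module.finBasis ℚ V with hb
  set N : G → Matrix (Fin (Module.finrank ℚ V)) (Fin (Module.finrank ℚ V)) ℂ :=
    fun g => (LinearMap.toMatrix b b (ρ g)).map (algebraMap ℚ ℂ) with hN
  have htr : ∀ g, (N g).trace = ((ρ.character g : ℚ) : ℂ) := by
    intro g
    have h1 : ρ.character g = (LinearMap.toMatrix b b (ρ g)).trace :=
      LinearMap.trace_eq_matrix_trace ℚ b _
    have h2 : ((((LinearMap.toMatrix b b (ρ g)).trace : ℚ)) : ℂ) =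
        ∑ i, (((LinearMap.toMatrix b b (ρ g) : Matrix _ _ ℚ).diag i : ℚ) : ℂ) := by
      unfold Matrix.trace
      push_cast
      rfl
    rw [h1, h2]
    exact Finset.sum_congr rfl fun i _ => eq_ratCast (algebraMap ℚ ℂ) _
  have hmul : ∀ g h, N g * N h = N (g * h) := by
    intro g h
    rw [hN]
    simp only
    rw [← Matrix.map_mul, map_mul]
    congr 1
    exact (LinearMap.toMatrix_mul b (ρ g) (ρ h)).symm
  have hone : N 1 = 1 := by
    rw [hN]
    simp only
    rw [map_one]
    have : LinearMap.toMatrix b b (1 : V →ₗ[ℚ] V) = 1 := LinearMap.toMatrix_one b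
    rw [this]
    exact Matrix.map_one _ (map_zero _) (map_one _)
  have hpow : ∀ k : ℕ, N g ^ k = N (g ^ k) := by
    intro k
    induction k with
    | zero => rw [pow_zero, pow_zero, hone]
    | succ k ih => rw [pow_succ, ih, hmul, pow_succ]
  obtain ⟨k, hk⟩ : ∃ k, Nat.card G = k + 1 := ⟨Nat.card G - 1, by
    have : 0 < Nat.card G := Nat.card_pos
    omega⟩
  have h1 := Pool.Agent.W540.BE.trace_conj_matrix (N g) (N g⁻¹)
    (by rw [hmul, mul_inv_cancel, hone]) (k := k) (by rw [hpow, ← hk, pow_card_eq_one', hone])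
  rw [htr, htr] at h1
  have h2 : conj ((ρ.character g : ℚ) : ℂ) = ((ρ.character g : ℚ) : ℂ) := by
    rw [← Complex.ofReal_ratCast, Complex.conj_ofReal]
  rw [h2] at h1
  exact_mod_cast h1.symm

end Pool.Agent.TH652.ART
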