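import Mathlib

/-! The function `s ↦ conj F(conj s)` at the real points. -/

set_option autoImplicit false

namespace Pool.Agent.TH652.ART

open Filter Topology ComplexConjugate

/-- `F*(s) = conj F(conj s)` -/
noncomputable def st (F : ℂ → ℂ) (s : ℂ) : ℂ := conj (F (conj s))

theorem st_st (F : ℂ → ℂ) : st (st F) = F := by
  funext s
  simp [st]

theorem conj_tendsto (x : ℝ) : Tendsto (fun s : ℂ => conj s) (𝓝[≠] (x : ℂ)) (𝓝[≠] (x : ℂ)) := by
  refine tendsto_nhdsWithin_iff.2 ⟨?_, ?_⟩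
  · have h1 : Tendsto (fun s : ℂ => conj s) (𝓝 (x : ℂ)) (𝓝 (conj (x : ℂ))) :=
      Complex.continuous_conj.tendsto _
    rw [Complex.conj_ofReal] at h1
    exact h1.mono_left nhdsWithin_le_nhds
  · filter_upwards [self_mem_nhdsWithin] with s hs h
    apply hs
    have h1 : conj s = (x : ℂ) := h
    have h2 := congrArg conj h1
    rw [Complex.conj_conj, Complex.conj_ofReal] at h2
    exact h2

theorem st_analytic {g : ℂ → ℂ} {x : ℝ} (h : AnalyticAt ℂ g (x : ℂ)) :
    AnalyticAt ℂ (st g) (x : ℂ) := by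
  rw [Complex.analyticAt_iff_eventually_differentiableAt] at h ⊢
  have h1 : Tendsto (fun s : ℂ => conj s) (𝓝 (x : ℂ)) (𝓝 (x : ℂ)) := by
    have h1 : Tendsto (fun s : ℂ => conj s) (𝓝 (x : ℂ)) (𝓝 (conj (x : ℂ))) :=
      Complex.continuous_conj.tendsto _
    rwa [Complex.conj_ofReal] at h1
  filter_upwards [h1.eventually h] with s hs
  have h2 := hs.hasDerivAt.conj_conj
  rw [Complex.conj_conj] at h2
  exact h2.differentiableAt

theorem st_fact {F g : ℂ → ℂ} {x : ℝ} {m : ℤ}
    (h : ∀ᶠ s in 𝓝[≠] (x : ℂ), F s = (s - x) ^ m • g s) :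
    ∀ᶠ s in 𝓝[≠] (x : ℂ), st F s = (s - x) ^ m • st g s := by
  filter_upwards [(conj_tendsto x).eventually h] with s hs
  unfold st
  rw [hs]
  simp

/-- the order and the leading coefficient at a real point -/
theorem st_order {F : ℂ → ℂ} {x : ℝ} (h : MeromorphicAt F (x : ℂ)) :
    MeromorphicAt (st F) (x : ℂ) ∧
      meromorphicOrderAt (st F) (x : ℂ) = meromorphicOrderAt F (x : ℂ) ∧
      meromorphicTrailingCoeffAt (st F) (x : ℂ) = conj (meromorphicTrailingCoeffAt F (x : ℂ)) := by
  by_cases ht : meromorphicOrderAt F (x : ℂ) = ⊤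
  · have h1 := meromorphicOrderAt_eq_top_iff.1 ht
    have h2 : ∀ᶠ s in 𝓝[≠] (x : ℂ), st F s = 0 := by
      filter_upwards [(conj_tendsto x).eventually h1] with s hs
      unfold st
      rw [hs, map_zero]
    have h3 := meromorphicOrderAt_eq_top_iff.2 h2
    have h4 : MeromorphicAt (st F) (x : ℂ) := by
      have : MeromorphicAt (fun _ : ℂ => (0 : ℂ)) (x : ℂ) := MeromorphicAt.const 0 _
      exact this.congr (by
        filter_upwards [h2] with s hs
        exact hs.symm)
    refine ⟨h4, by rw [h3, ht], ?_⟩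
    rw [MeromorphicAt.meromorphicTrailingCoeffAt_of_order_eq_top ht,
      MeromorphicAt.meromorphicTrailingCoeffAt_of_order_eq_top h3, map_zero]
  · obtain ⟨m, hm⟩ := WithTop.ne_top_iff_exists.1 ht
    obtain ⟨g, hg, hg0, hgF⟩ := (meromorphicOrderAt_eq_int_iff h).1 hm.symm
    have a1 := st_analytic hg
    have a2 : st g (x : ℂ) ≠ 0 := by
      unfold st
      rw [Complex.conj_ofReal]
      simpa using hg0
    have a3 := st_fact hgF
    have a4 : MeromorphicAt (st F) (x : ℂ) := by
      have : MeromorphicAt (fun s : ℂ => (s - x) ^ m • st g s) (x : ℂ) := by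
        have b1 : MeromorphicAt (fun s : ℂ => s - x) (x : ℂ) := by fun_prop
        exact (b1.zpow m).smul a1.meromorphicAt
      exact this.congr (by
        filter_upwards [a3] with s hs
        exact hs.symm)
    refine ⟨a4, ?_, ?_⟩
    · rw [(meromorphicOrderAt_eq_int_iff a4).2 ⟨st g, a1, a2, a3⟩, ← hm]
    · rw [a1.meromorphicTrailingCoeffAt_of_ne_zero_of_eq_nhdsNE a2 a3,
        hg.meromorphicTrailingCoeffAt_of_ne_zero_of_eq_nhdsNE hg0 hgF]
      unfold st
      rw [Complex.conj_ofReal]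

end Pool.Agent.TH652.ART
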