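import Pool.Agent.TH652.ART.Cls

/-! Expansions in irreducible characters. -/

set_option autoImplicit false

namespace Pool.Agent.TH652.ART

open ComplexConjugate
open Pool.Agent.Helper884.IC (B IsClass IsIrrChar class_eq_zero)

variable {G : Type} [Group G]

/-- `ρ_k` are all the irreducible complex representations of `G`, each exactly once up to
isomorphism. -/
structure IsComplete {κ : Type} {n : κ → ℕ} (ρ : ∀ k, Representation ℂ G (Fin (n k) → ℂ)) :
    Prop where
  irr : ∀ k, (ρ k).IsIrreducible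
  ne : ∀ k l, k ≠ l → IsEmpty ((ρ k).Equiv (ρ l))
  all : ∀ (W : Type) [AddCommGroup W] [Module ℂ W] [FiniteDimensional ℂ W]
    (σ : Representation ℂ G W), σ.IsIrreducible → ∃ k, Nonempty (σ.Equiv (ρ k))

variable {κ : Type} [Fintype G] {n : κ → ℕ}
  {ρ : ∀ k, Representation ℂ G (Fin (n k) → ℂ)}

theorem card_ne : (Nat.card G : ℂ) ≠ 0 := by
  exact_mod_cast Nat.card_pos.ne'

theorem ortho (h : IsComplete ρ) [DecidableEq κ] (k l : κ) :
    ∑ q, (ρ k).character q * (ρ l).character q⁻¹ = if k = l then (Nat.card G : ℂ) else 0 := by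
  classical
  have h0 : (Nat.card G : ℂ) ≠ 0 := card_ne
  let _ : Invertible (Nat.card G : ℂ) := invertibleOfNonzero h0
  have := h.irr k
  have := h.irr l
  have h1 := Representation.char_orthonormal (ρ k) (ρ l)
  rw [inv_mul_eq_iff_eq_mul₀ h0] at h1
  rw [h1]
  by_cases hkl : k = l
  · subst hkl
    rw [if_pos ⟨Representation.Equiv.refl _⟩, if_pos rfl, mul_one]
  · rw [if_neg hkl, if_neg, mul_zero]
    rintro ⟨e⟩
    exact (h.ne l k (Ne.symm hkl)).false e

theorem char_conj (k : κ) (x y : G) : (ρ k).character (y * x * y⁻¹) = (ρ k).character x :=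
  Representation.char_conj (ρ k) x y

/-- a class function orthogonal to all `χ_k` vanishes -/
theorem eq_zero (h : IsComplete ρ) (f : G → ℂ) (hf : ∀ x y, f (y * x * y⁻¹) = f x)
    (h0 : ∀ k, ∑ x, f x * (ρ k).character x⁻¹ = 0) : f = 0 := by
  refine class_eq_zero f (fun g y => hf g y) ?_
  rintro chi ⟨W, _, _, _, σ, hσ, rfl⟩
  obtain ⟨k, ⟨e⟩⟩ := h.all W σ hσ
  have h1 : σ.character = (ρ k).character := Representation.char_iso e
  unfold B
  rw [h1, h0 k, mul_zero]

theorem mean_char (k : κ) (g : G) :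
    ∑ x, (cw g x : ℂ) * (ρ k).character x⁻¹ = (((ρ k).character g).re : ℂ) := by
  have h1 : ∑ x, (cw g x : ℂ) * (ρ k).character x⁻¹ =
      ∑ x, (cw g x : ℂ) * (ρ k).character x := by
    rw [← Equiv.sum_comp (Equiv.inv G)]
    refine Finset.sum_congr rfl fun x _ => ?_
    rw [Equiv.inv_apply, inv_inv, cw_inv]
  have h2 : ∑ x, (cw g x : ℂ) * (ρ k).character x⁻¹ =
      ∑ x, ((cw g x * ((ρ k).character x).re : ℝ) : ℂ) := by
    have h3 : 2 * ∑ x, (cw g x : ℂ) * (ρ k).character x⁻¹ =
        2 * ∑ x, ((cw g x * ((ρ k).character x).re : ℝ) : ℂ) := by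
      nth_rewrite 1 [two_mul]
      nth_rewrite 2 [h1]
      rw [← Finset.sum_add_distrib, Finset.mul_sum]
      refine Finset.sum_congr rfl fun x _ => ?_
      rw [char_inv, ← mul_add, add_comm (conj _) _, Complex.add_conj]
      push_cast
      ring
    exact mul_left_cancel₀ two_ne_zero h3
  rw [h2, ← Complex.ofReal_sum]
  congr 1
  exact mean_cw (fun x => ((ρ k).character x).re) (fun x y => by
    rw [char_conj]) (fun x => by
    rw [char_inv, Complex.conj_re]) g

/-- **column orthogonality for real classes** -/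
theorem cw_expand [Fintype κ] (h : IsComplete ρ) (g x : G) :
    cw g x = (Nat.card G : ℝ)⁻¹ * ∑ k, ((ρ k).character g).re * ((ρ k).character x).re := by
  classical
  have h0 : (Nat.card G : ℂ) ≠ 0 := card_ne
  have h1 := eq_zero h (fun x => (cw g x : ℂ) - (Nat.card G : ℂ)⁻¹ *
      ∑ k, (((ρ k).character g).re : ℂ) * (ρ k).character x) (fun x y => by
    rw [cw_conj]
    congr 2
    exact Finset.sum_congr rfl fun k _ => by rw [char_conj]) (fun l => by
    simp only [sub_mul, Finset.sum_sub_distrib]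
    rw [mean_char, sub_eq_zero]
    have h2 : ∀ x : G, (Nat.card G : ℂ)⁻¹ *
        (∑ k, (((ρ k).character g).re : ℂ) * (ρ k).character x) * (ρ l).character x⁻¹ =
        (Nat.card G : ℂ)⁻¹ * ∑ k, (((ρ k).character g).re : ℂ) *
          ((ρ k).character x * (ρ l).character x⁻¹) := by
      intro x
      rw [mul_assoc, Finset.sum_mul]
      congr 1
      exact Finset.sum_congr rfl fun k _ => by ring
    rw [Finset.sum_congr rfl fun x _ => h2 x, ← Finset.mul_sum, Finset.sum_comm]
    have h3 : ∀ k, ∑ x, (((ρ k).character g).re : ℂ) *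
        ((ρ k).character x * (ρ l).character x⁻¹) =
        if k = l then (((ρ k).character g).re : ℂ) * Nat.card G else 0 := by
      intro k
      rw [← Finset.mul_sum, ortho h]
      split_ifs <;> simp
    rw [Finset.sum_congr rfl fun k _ => h3 k, Finset.sum_ite_eq', if_pos (Finset.mem_univ _)]
    field_simp)
  have h2 := congrFun h1 x
  simp only [Pi.zero_apply, sub_eq_zero] at h2
  have h3 := congrArg Complex.re h2
  rw [Complex.ofReal_re] at h3
  rw [h3]
  have h4 : (Nat.card G : ℂ)⁻¹ = (((Nat.card G : ℝ)⁻¹ : ℝ) : ℂ) := by push_cast; rfl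
  rw [h4, Complex.re_ofReal_mul, Complex.re_sum]
  congr 1
  exact Finset.sum_congr rfl fun k _ => by rw [Complex.re_ofReal_mul]

variable {V : Type} [AddCommGroup V] [Module ℚ V] [FiniteDimensional ℚ V]

/-- the inner product of the characters of `V ⊗ ℂ` and `τ`; the multiplicity of `τ` in `V ⊗ ℂ` for
irreducible `τ` -/
noncomputable def inner (V' : Representation ℚ G V) {m : ℕ}
    (τ : Representation ℂ G (Fin m → ℂ)) : ℂ :=
  (Nat.card G : ℂ)⁻¹ * ∑ x, ((V'.character x : ℚ) : ℂ) * conj (τ.character x)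

theorem v_expand [Fintype κ] (h : IsComplete ρ) (V' : Representation ℚ G V) (x : G) :
    ((V'.character x : ℚ) : ℂ) = ∑ k, inner V' (ρ k) * (ρ k).character x := by
  classical
  have h0 : (Nat.card G : ℂ) ≠ 0 := card_ne
  have h1 := eq_zero h (fun x => ((V'.character x : ℚ) : ℂ) -
      ∑ k, inner V' (ρ k) * (ρ k).character x) (fun x y => by
    rw [Representation.char_conj]
    congr 1
    exact Finset.sum_congr rfl fun k _ => by rw [char_conj]) (fun l => by
    simp only [sub_mul, Finset.sum_sub_distrib]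
    rw [sub_eq_zero]
    have h2 : ∀ x : G, (∑ k, inner V' (ρ k) * (ρ k).character x) * (ρ l).character x⁻¹ =
        ∑ k, inner V' (ρ k) * ((ρ k).character x * (ρ l).character x⁻¹) := by
      intro x
      rw [Finset.sum_mul]
      exact Finset.sum_congr rfl fun k _ => by ring
    rw [Finset.sum_congr rfl fun x _ => h2 x, Finset.sum_comm]
    have h3 : ∀ k, ∑ x, inner V' (ρ k) * ((ρ k).character x * (ρ l).character x⁻¹) =
        if k = l then inner V' (ρ k) * Nat.card G else 0 := by
      intro k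
      rw [← Finset.mul_sum, ortho h]
      split_ifs <;> simp
    rw [Finset.sum_congr rfl fun k _ => h3 k, Finset.sum_ite_eq', if_pos (Finset.mem_univ _)]
    unfold inner
    rw [mul_right_comm, inv_mul_cancel₀ h0, one_mul]
    exact Finset.sum_congr rfl fun x _ => by rw [char_inv])
  have h2 := congrFun h1 x
  simp only [Pi.zero_apply, sub_eq_zero] at h2
  exact h2

/-- the inner product in real terms -/
theorem inner_re (V' : Representation ℚ G V) {m : ℕ} (τ : Representation ℂ G (Fin m → ℂ)) :
    inner V' τ = (((Nat.card G : ℝ)⁻¹ * ∑ x, ((V'.character x : ℚ) : ℝ) * (τ.character x).re : ℝ) :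
      ℂ) := by
  unfold inner
  have h1 : ∑ x, ((V'.character x : ℚ) : ℂ) * conj (τ.character x) =
      ∑ x, ((V'.character x : ℚ) : ℂ) * τ.character x := by
    rw [← Equiv.sum_comp (Equiv.inv G)]
    refine Finset.sum_congr rfl fun x _ => ?_
    rw [Equiv.inv_apply, rchar_inv, char_inv, Complex.conj_conj]
  have h2 : ∑ x, ((V'.character x : ℚ) : ℂ) * conj (τ.character x) =
      ∑ x, ((((V'.character x : ℚ) : ℝ) * (τ.character x).re : ℝ) : ℂ) := by
    have h3 : 2 * ∑ x, ((V'.character x : ℚ) : ℂ) * conj (τ.character x) =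
        2 * ∑ x, ((((V'.character x : ℚ) : ℝ) * (τ.character x).re : ℝ) : ℂ) := by
      nth_rewrite 1 [two_mul]
      nth_rewrite 2 [h1]
      rw [← Finset.sum_add_distrib, Finset.mul_sum]
      refine Finset.sum_congr rfl fun x _ => ?_
      rw [← mul_add, add_comm (conj _) _, Complex.add_conj]
      push_cast
      ring
    exact mul_left_cancel₀ two_ne_zero h3
  rw [h2]
  push_cast
  rfl

end Pool.Agent.TH652.ART
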