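import Pool.Agent.TH652.ART.Tw

/-! The law for one twist: the order and the leading coefficient from the real parts of the traces. -/

set_option autoImplicit false

namespace Pool.Agent.TH652.ART

open Filter Topology Set Polynomial ComplexConjugate
open Pool.Agent.W189.ML Pool.Agent.W189.LC
open Pool.Agent.W187.UR hiding excess
open Pool.Agent.TH652.COL

variable {P : Type} {q : P → ℝ} {B : P → ℝ[X]} {δ β : ℝ} {N : ℕ} {V : Type} [AddCommGroup V]
  [Module ℂ V]

theorem conj_lt (E : LData q B δ β N) (s : ℂ) (x : P × ℕ) :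
    conj (lt q B (conj s) x) = lt q B s x := by
  have hq := E.pos x.1
  have hqc : (q x.1 : ℂ) ≠ 0 := by exact_mod_cast hq.ne'
  unfold lt
  have h1 : conj ((q x.1 : ℂ) ^ (-(conj s))) = (q x.1 : ℂ) ^ (-s) := by
    rw [Complex.cpow_def_of_ne_zero hqc, Complex.cpow_def_of_ne_zero hqc, ← Complex.exp_conj,
      ← Complex.ofReal_log hq.le]
    congr 1
    simp
  rw [map_div₀, map_mul, map_pow, h1, Complex.conj_ofReal, Complex.conj_natCast]

/-- the real weights of a twist -/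
noncomputable def rw' (A : P → Module.End ℂ V) (x : P × ℕ) : ℝ := (tr A x).re

theorem abs_rw_le [FiniteDimensional ℂ V] {M : ℕ} (hM : 0 < M) {A : P → Module.End ℂ V}
    (hA : ∀ v, A v ^ M = 1) (x : P × ℕ) : |rw' A x| ≤ Module.finrank ℂ V :=
  (Complex.abs_re_le_norm _).trans (norm_trace_le (A x.1) hM (hA x.1) _)

theorem prod_st [FiniteDimensional ℂ V] (E : LData q B δ β N) {M : ℕ} (hM : 0 < M)
    {A : P → Module.End ℂ V} (hA : ∀ v, A v ^ M = 1) {F : ℂ → ℂ} {σ₁ : ℝ}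
    (hF : ∀ s : ℂ, σ₁ < s.re → F s = ∏' v, (tw (B v) (A v) ((q v : ℂ) ^ (-s)))⁻¹) (s : ℂ)
    (hs : max σ₁ (δ + β) < s.re) :
    F s * st F s = Complex.exp (wser q B (fun x => 2 * rw' A x) s) := by
  have h1 : σ₁ < s.re := lt_of_le_of_lt (le_max_left _ _) hs
  have h2 : δ + β < s.re := lt_of_le_of_lt (le_max_right _ _) hs
  have h3 : (conj s).re = s.re := Complex.conj_re s
  have h4 : F s = Complex.exp (∑' x, tr A x * lt q B s x) := by
    rw [hF s h1]
    exact (tw_hasProd E hM hA h2).tprod_eq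
  have h5 : st F s = Complex.exp (∑' x, conj (tr A x) * lt q B s x) := by
    unfold st
    rw [hF (conj s) (by rw [h3]; exact h1), (tw_hasProd E hM hA (by rw [h3]; exact h2)).tprod_eq,
      ← Complex.exp_conj, Complex.conj_tsum]
    congr 1
    refine tsum_congr fun x => ?_
    rw [map_mul, conj_lt E]
  have hb : ∀ x, ‖tr A x‖ ≤ Module.finrank ℂ V := fun x => norm_trace_le (A x.1) hM (hA x.1) _
  have s1 := tlt_summable E (c := tr A) (W := Module.finrank ℂ V) hb h2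
  have s2 := tlt_summable E (c := fun x => conj (tr A x)) (W := Module.finrank ℂ V) (fun x => by
    rw [Complex.norm_conj]
    exact hb x) h2
  rw [h4, h5, ← Complex.exp_add, ← s1.tsum_add s2]
  congr 1
  unfold wser
  refine tsum_congr fun x => ?_
  rw [← add_mul, Complex.add_conj]
  rfl

theorem excess_st {F : ℂ → ℂ} {s₀ : ℝ} (hmer : ∀ x : ℝ, s₀ ≤ x → MeromorphicAt F (x : ℂ)) :
    excess (fun s => F s * st F s) s₀ = 2 * excess F s₀ := by
  unfold excess
  rw [← smul_eq_mul, smul_finsum]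
  refine finsum_congr fun σ => ?_
  rw [smul_finsum]
  refine finsum_congr fun hσ => ?_
  have h1 := hmer σ (le_of_lt hσ)
  obtain ⟨h2, h3, -⟩ := st_order h1
  have h4 : meromorphicOrderAt (fun s => F s * st F s) (σ : ℂ) =
      meromorphicOrderAt F (σ : ℂ) + meromorphicOrderAt F (σ : ℂ) := by
    have := meromorphicOrderAt_mul h1 h2
    rw [h3] at this
    exact this
  rw [h4, smul_eq_mul]
  by_cases ht : meromorphicOrderAt F (σ : ℂ) = ⊤
  · rw [ht]
    simp
  · obtain ⟨k, hk⟩ := WithTop.ne_top_iff_exists.1 ht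
    rw [← hk, ← WithTop.coe_add]
    have h5 : ∀ j : ℤ, ((j : WithTop ℤ)).untop₀ = j := fun j => WithTop.untop₀_coe j
    rw [h5, h5]
    ring

theorem wsum_two (w : P × ℕ → ℝ) (s₀ γ T : ℝ) :
    wsum q B (fun x => 2 * w x) s₀ γ T = 2 * wsum q B w s₀ γ T := by
  unfold wsum
  rw [← tsum_mul_left]
  refine tsum_congr fun x => ?_
  push_cast
  ring

/-- **the law for one twist** -/
theorem twlaw [Countable P] [FiniteDimensional ℂ V] (E : LData q B δ β N) {M : ℕ} (hM : 0 < M)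
    {A : P → Module.End ℂ V} (hA : ∀ v, A v ^ M = 1) {F : ℂ → ℂ} {s₀ σ₁ : ℝ}
    (hmer : ∀ x : ℝ, s₀ ≤ x → MeromorphicAt F (x : ℂ))
    (hF : ∀ s : ℂ, σ₁ < s.re → F s = ∏' v, (tw (B v) (A v) ((q v : ℂ) ^ (-s)))⁻¹) {γ : ℝ}
    (hγ : Real.pi / 2 < γ) :
    {σ : ℝ | s₀ ≤ σ ∧ meromorphicOrderAt F (σ : ℂ) ≠ 0}.Finite ∧
    ∃ (k : ℤ), meromorphicOrderAt F (s₀ : ℂ) = k ∧ meromorphicTrailingCoeffAt F (s₀ : ℂ) ≠ 0 ∧
      (fun T : ℝ => wsum q B (rw' A) s₀ γ T - (k * (Real.log T - Lam γ) -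
        Real.log ‖meromorphicTrailingCoeffAt F (s₀ : ℂ)‖ +
        Real.pi * excess F s₀ * Complex.I)) =O[atTop] (fun T : ℝ => 1 / T) := by
  have hb : ∀ x : P × ℕ, |2 * rw' A x| ≤ 2 * Module.finrank ℂ V := fun x => by
    rw [abs_mul, abs_of_pos (by norm_num : (0 : ℝ) < 2)]
    exact mul_le_mul_of_nonneg_left (abs_rw_le hM hA x) (by norm_num)
  have hmer2 : ∀ x : ℝ, s₀ ≤ x → MeromorphicAt (fun s => F s * st F s) (x : ℂ) := fun x hx =>
    (hmer x hx).mul (st_order (hmer x hx)).1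
  obtain ⟨hfin, k', l', hk', hl', hl0', hO⟩ := wlaw E hb hmer2 (prod_st E hM hA hF) hγ
  have hord : ∀ σ : ℝ, s₀ ≤ σ → meromorphicOrderAt (fun s => F s * st F s) (σ : ℂ) =
      meromorphicOrderAt F (σ : ℂ) + meromorphicOrderAt F (σ : ℂ) := by
    intro σ hσ
    obtain ⟨h2, h3, -⟩ := st_order (hmer σ hσ)
    have := meromorphicOrderAt_mul (hmer σ hσ) h2
    rw [h3] at this
    exact this
  have hne : meromorphicOrderAt F (s₀ : ℂ) ≠ ⊤ := by
    intro h
    have h1 := hord s₀ le_rfl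
    rw [hk', h] at h1
    exact absurd h1 (by simp)
  obtain ⟨k, hk⟩ := WithTop.ne_top_iff_exists.1 hne
  have hkk : k' = 2 * k := by
    have h1 := hord s₀ le_rfl
    rw [hk', ← hk] at h1
    have h2 : (k' : WithTop ℤ) = ((k + k : ℤ) : WithTop ℤ) := by
      rw [h1]
      norm_cast
    have h3 : k' = k + k := by exact_mod_cast h2
    omega
  obtain ⟨hst1, hst2, hst3⟩ := st_order (hmer s₀ le_rfl)
  set l : ℂ := meromorphicTrailingCoeffAt F (s₀ : ℂ) with hl
  have hll : (l' : ℂ) = l * conj l := by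
    rw [← hl', ← hst3]
    exact MeromorphicAt.meromorphicTrailingCoeffAt_mul (hmer s₀ le_rfl) hst1
  have hl0 : l ≠ 0 := by
    intro h
    rw [h, zero_mul] at hll
    exact hl0' (by exact_mod_cast hll)
  have hlabs : Real.log |l'| = 2 * Real.log ‖l‖ := by
    have h1 : |l'| = ‖l‖ ^ 2 := by
      have h2 : ‖(l' : ℂ)‖ = ‖l‖ * ‖l‖ := by rw [hll, norm_mul, Complex.norm_conj]
      rw [Complex.norm_real, Real.norm_eq_abs] at h2
      rw [h2, sq]
    rw [h1, Real.log_pow]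
    norm_num
  refine ⟨?_, k, hk.symm, hl0, ?_⟩
  · refine hfin.subset ?_
    rintro σ ⟨h1, h2⟩
    refine ⟨h1, ?_⟩
    rw [hord σ h1]
    intro h3
    apply h2
    by_cases ht : meromorphicOrderAt F (σ : ℂ) = ⊤
    · rw [ht] at h3
      simp at h3
    · obtain ⟨j, hj⟩ := WithTop.ne_top_iff_exists.1 ht
      rw [← hj] at h3 ⊢
      have h4 : ((j + j : ℤ) : WithTop ℤ) = ((0 : ℤ) : WithTop ℤ) := by
        rw [WithTop.coe_add]
        exact h3
      have h5 : j + j = 0 := by exact_mod_cast h4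
      have h6 : j = 0 := by omega
      rw [h6]
      rfl
  · have h7 := hO.const_mul_left (1 / 2 : ℂ)
    refine h7.congr_left fun T => ?_
    rw [wsum_two, hkk, hlabs, excess_st hmer]
    push_cast
    ring

end Pool.Agent.TH652.ART
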