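import Pool.Agent.TH652.ART.Law
import Pool.Agent.TH652.ART.Exp
import Pool.Agent.TH652.COL.NF

/-! The laws for the sums over the prime powers whose Frobenius elements lie in a given class. -/

set_option autoImplicit false

namespace Pool.Agent.TH652.ART

open Filter Topology Set Polynomial
open Pool.Agent.W189.ML Pool.Agent.W189.LC
open Pool.Agent.W187.UR hiding excess
open Pool.Agent.TH652.COL

variable {P : Type} {q : P → ℝ} {B : P → ℝ[X]} {δ β : ℝ} {N : ℕ}

/-- **the tail is negligible** -/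
theorem wcut (E : LData q B δ β N) {w : P × ℕ → ℝ} (hw : ∀ x, |w x| ≤ 1)
    (hfin : ∀ R : ℝ, {v | q v ≤ R}.Finite)
    (s₀ γ : ℝ) {A : ℝ} (hA : 0 < A) (hA1 : δ + β - s₀ < A) :
    (fun T : ℝ => wsum q B w s₀ γ T - ∑ᶠ x ∈ cut q A T, (w x : ℂ) * lterm q B s₀ γ T x) =O[atTop]
      (fun T : ℝ => 1 / T) := by
  set a₀ : ℝ := max 0 (δ + β - s₀) with ha₀
  have ha₀A : a₀ < A := max_lt hA hA1
  have ha₀0 : 0 ≤ a₀ := le_max_left _ _
  have ha₀1 : δ + β - s₀ ≤ a₀ := le_max_right _ _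
  set a₁ : ℝ := (2 * a₀ + A) / 3 with ha₁
  set a₂ : ℝ := (a₀ + 2 * A) / 3 with ha₂
  have h01 : a₀ < a₁ := by rw [ha₁]; linarith
  have h12 : a₁ < a₂ := by rw [ha₁, ha₂]; linarith
  have h2A : a₂ < A := by rw [ha₂]; linarith
  have hs : Summable fun x => |cq q B s₀ x| * Real.exp (-(a₁ * fq q 1 x)) :=
    E.summable (by linarith)
  set M : ℝ := ∑' x, |cq q B s₀ x| * Real.exp (-(a₁ * fq q 1 x)) with hM
  have hM0 : 0 ≤ M := tsum_nonneg fun x => by positivity
  have hκ : 0 < a₂ - a₁ := by linarith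
  refine Asymptotics.IsBigO.of_bound (2 * M) ?_
  filter_upwards [exp_cmp hA h2A hκ, eventually_gt_atTop 0] with T hT hT0
  have hsum' : Summable fun x => (w x : ℂ) * lterm q B s₀ γ T x := wsummable E hw s₀ γ hT0
  have hcf := cut_finite E.two_le hfin A T
  have h1 : wsum q B w s₀ γ T - ∑ᶠ x ∈ cut q A T, (w x : ℂ) * lterm q B s₀ γ T x =
      ∑' x : ((cut q A T)ᶜ : Set (P × ℕ)), (w x : ℂ) * lterm q B s₀ γ T x := by
    have h2 := hsum'.tsum_subtype_add_tsum_subtype_compl (cut q A T)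
    have h3 : ∑' x : cut q A T, (w x : ℂ) * lterm q B s₀ γ T x = ∑ᶠ x ∈ cut q A T, (w x : ℂ) * lterm q B s₀ γ T x := by
      rw [finsum_mem_eq_finite_toFinset_sum _ hcf, ← Finset.tsum_subtype]
      have h4 : ((hcf.toFinset : Finset (P × ℕ)) : Set (P × ℕ)) = cut q A T := hcf.coe_toFinset
      exact (congrArg (fun S : Set (P × ℕ) => ∑' x : S, (w x : ℂ) * lterm q B s₀ γ T x) h4).symm
    unfold wsum
    rw [← h2, h3]
    ring
  rw [h1]
  have hb : ∀ x : ((cut q A T)ᶜ : Set (P × ℕ)), ‖(w x : ℂ) * lterm q B s₀ γ T x‖ ≤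
      (2 * Real.exp (-T)) * (|cq q B s₀ x| * Real.exp (-(a₁ * fq q 1 x))) := by
    rintro ⟨x, hx⟩
    simp only
    have hw1 : ‖(w x : ℂ) * lterm q B s₀ γ T x‖ ≤ ‖lterm q B s₀ γ T x‖ := by
      rw [norm_mul, Complex.norm_real, Real.norm_eq_abs]
      have := mul_le_mul_of_nonneg_right (hw x) (norm_nonneg (lterm q B s₀ γ T x))
      rwa [one_mul] at this
    refine hw1.trans ?_
    have hx' : Real.exp (A * T) < fq q 1 x := by
      have h5 : ¬ ((x.2 : ℝ) + 1) * Real.log (q x.1) ≤ Real.exp (A * T) := hx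
      push Not at h5
      unfold fq
      linarith
    have h6 := E.norm_lterm_le (s₀ := s₀) (γ := γ) (D := 1) (a := a₂) zero_lt_one hT0
      (by linarith) x
    rw [one_mul] at h6
    refine h6.trans ?_
    have h7 : Real.exp (-(a₂ * fq q 1 x)) ≤
        Real.exp (-(a₁ * fq q 1 x)) * Real.exp (-((a₂ - a₁) * Real.exp (A * T))) := by
      rw [← Real.exp_add]
      apply Real.exp_le_exp.2
      nlinarith
    have h8 : (Real.exp (Real.exp (a₂ * T)) + 1) * Real.exp (-((a₂ - a₁) * Real.exp (A * T))) ≤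
        2 * Real.exp (-T) := by
      have h9 : (1 : ℝ) ≤ Real.exp (Real.exp (a₂ * T)) :=
        Real.one_le_exp (Real.exp_pos _).le
      calc (Real.exp (Real.exp (a₂ * T)) + 1) * Real.exp (-((a₂ - a₁) * Real.exp (A * T))) ≤
          (2 * Real.exp (Real.exp (a₂ * T))) * Real.exp (-((a₂ - a₁) * Real.exp (A * T))) := by
            gcongr
            linarith
        _ = 2 * Real.exp (Real.exp (a₂ * T) - (a₂ - a₁) * Real.exp (A * T)) := by
            rw [mul_assoc, ← Real.exp_add]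
            rfl
        _ ≤ 2 * Real.exp (-T) := by
            have h10 : Real.exp (Real.exp (a₂ * T) - (a₂ - a₁) * Real.exp (A * T)) ≤
                Real.exp (-T) := Real.exp_le_exp.2 (by linarith)
            linarith
    calc (Real.exp (Real.exp (a₂ * T)) + 1) * (|cq q B s₀ x| * Real.exp (-(a₂ * fq q 1 x))) ≤
        (Real.exp (Real.exp (a₂ * T)) + 1) * (|cq q B s₀ x| * (Real.exp (-(a₁ * fq q 1 x)) *
          Real.exp (-((a₂ - a₁) * Real.exp (A * T))))) := by gcongr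
      _ = ((Real.exp (Real.exp (a₂ * T)) + 1) * Real.exp (-((a₂ - a₁) * Real.exp (A * T)))) *
          (|cq q B s₀ x| * Real.exp (-(a₁ * fq q 1 x))) := by ring
      _ ≤ _ := mul_le_mul_of_nonneg_right h8 (by positivity)
  have hs1 : Summable fun x : ((cut q A T)ᶜ : Set (P × ℕ)) =>
      (2 * Real.exp (-T)) * (|cq q B s₀ x| * Real.exp (-(a₁ * fq q 1 x))) :=
    (hs.subtype _).mul_left _
  have h11 : ‖∑' x : ((cut q A T)ᶜ : Set (P × ℕ)), (w x : ℂ) * lterm q B s₀ γ T x‖ ≤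
      ∑' x : ((cut q A T)ᶜ : Set (P × ℕ)),
        (2 * Real.exp (-T)) * (|cq q B s₀ x| * Real.exp (-(a₁ * fq q 1 x))) :=
    tsum_of_norm_bounded hs1.hasSum hb
  refine h11.trans ?_
  have h12 : ∑' x : ((cut q A T)ᶜ : Set (P × ℕ)),
      (2 * Real.exp (-T)) * (|cq q B s₀ x| * Real.exp (-(a₁ * fq q 1 x))) ≤
      (2 * Real.exp (-T)) * M := by
    rw [tsum_mul_left]
    refine mul_le_mul_of_nonneg_left ?_ (by positivity)
    refine Summable.tsum_subtype_le _ _ (fun x => ?_) hs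
    positivity
  refine h12.trans ?_
  have h13 : Real.exp (-T) ≤ 1 / T := by
    rw [Real.exp_neg, inv_eq_one_div]
    refine one_div_le_one_div_of_le hT0 ?_
    have := Real.add_one_le_exp T
    linarith
  rw [Real.norm_eq_abs, abs_of_pos (by positivity : 0 < 1 / T)]
  nlinarith [mul_nonneg hM0 (sub_nonneg.2 h13)]

/-- linearity -/
theorem wsum_comb {κ : Type} [Fintype κ] (E : LData q B δ β N) (c : ℝ) (a : κ → ℝ)
    (w : κ → P × ℕ → ℝ) {W : ℝ} (hw : ∀ k x, |w k x| ≤ W) {v : P × ℕ → ℝ}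
    (hv : ∀ x, v x = c * ∑ k, a k * w k x) (s₀ γ : ℝ) {T : ℝ} (hT : 0 < T) :
    wsum q B v s₀ γ T = c * ∑ k, (a k : ℂ) * wsum q B (w k) s₀ γ T := by
  unfold wsum
  have h1 : ∀ k, Summable fun x => (w k x : ℂ) * lterm q B s₀ γ T x := fun k =>
    wsummable E (hw k) s₀ γ hT
  simp only [← tsum_mul_left]
  rw [← Summable.tsum_finsetSum (fun k _ => (h1 k).mul_left (a k : ℂ)), ← tsum_mul_left]
  refine tsum_congr fun x => ?_
  rw [hv]
  push_cast
  rw [mul_assoc, Finset.sum_mul]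
  congr 1
  exact Finset.sum_congr rfl fun k _ => by ring

/-- the limit in a law -/
theorem lim_of_law {S : ℝ → ℂ} {a c L : ℂ}
    (h : (fun T : ℝ => S T - (a * (Real.log T - L) + c)) =O[atTop] (fun T : ℝ => 1 / T)) :
    Tendsto (fun T : ℝ => S T / Real.log T) atTop (𝓝 a) := by
  have h0 : Tendsto (fun T : ℝ => (1 : ℝ) / T) atTop (𝓝 0) := tendsto_const_nhds.div_atTop tendsto_id
  have h1 : Tendsto (fun T : ℝ => S T - (a * (Real.log T - L) + c)) atTop (𝓝 0) :=
    h.trans_tendsto h0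
  have h2 : Tendsto (fun T : ℝ => ((Real.log T)⁻¹ : ℝ)) atTop (𝓝 0) :=
    Real.tendsto_log_atTop.inv_tendsto_atTop
  have h3 : Tendsto (fun T : ℝ => (((Real.log T)⁻¹ : ℝ) : ℂ)) atTop (𝓝 0) := by
    have := (Complex.continuous_ofReal.tendsto 0).comp h2
    rw [Complex.ofReal_zero] at this
    exact this
  have h4 : Tendsto (fun T : ℝ => (S T - (a * (Real.log T - L) + c)) *
      (((Real.log T)⁻¹ : ℝ) : ℂ) + (a + (c - a * L) * (((Real.log T)⁻¹ : ℝ) : ℂ))) atTop
      (𝓝 (0 * 0 + (a + (c - a * L) * 0))) :=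
    (h1.mul h3).add ((h3.const_mul _).const_add a)
  rw [mul_zero, mul_zero, add_zero, zero_add] at h4
  refine h4.congr' ?_
  filter_upwards [eventually_gt_atTop 1] with T hT
  have hl : (Real.log T : ℂ) ≠ 0 := by
    have : Real.log T ≠ 0 := (Real.log_pos hT).ne'
    exact_mod_cast this
  rw [Complex.ofReal_inv]
  field_simp
  ring

section
variable {G : Type} [Group G] [Fintype G] {κ : Type} [Fintype κ] {n : κ → ℕ}
  {ρ : ∀ k, Representation ℂ G (Fin (n k) → ℂ)}

/-- the twisting endomorphisms of a representation -/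
noncomputable def fA {V : Type} [AddCommGroup V] [Module ℂ V] (Fr : P → G)
    (σ : Representation ℂ G V) (v : P) : Module.End ℂ V := σ (Fr v)⁻¹

omit [Fintype G] in
theorem tr_fA {V : Type} [AddCommGroup V] [Module ℂ V] (Fr : P → G) (σ : Representation ℂ G V)
    (x : P × ℕ) : tr (fA Fr σ) x = σ.character (Fr x.1 ^ (x.2 + 1))⁻¹ := by
  unfold tr fA
  rw [← map_pow, inv_pow]
  rfl

omit [Fintype G] in
theorem fA_pow {V : Type} [AddCommGroup V] [Module ℂ V] (Fr : P → G) (σ : Representation ℂ G V)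
    (v : P) : fA Fr σ v ^ Nat.card G = 1 := by
  unfold fA
  rw [← map_pow, pow_card_eq_one', map_one]

theorem rw_fA (Fr : P → G) {m : ℕ} (σ : Representation ℂ G (Fin m → ℂ)) (x : P × ℕ) :
    rw' (fA Fr σ) x = (σ.character (Fr x.1 ^ (x.2 + 1))).re := by
  unfold rw'
  rw [tr_fA, char_inv, Complex.conj_re]

/-- the weights of a class -/
noncomputable def kw (Fr : P → G) (g : G) (x : P × ℕ) : ℝ := cw g (Fr x.1 ^ (x.2 + 1))

theorem abs_kw_le (Fr : P → G) (g : G) (x : P × ℕ) : |kw Fr g x| ≤ 1 := abs_cw_le _ _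

theorem abs_rw_le' (Fr : P → G) (k : κ) (x : P × ℕ) :
    |rw' (fA Fr (ρ k)) x| ≤ ∑ j, (Module.finrank ℂ (Fin (n j) → ℂ) : ℝ) :=
  (abs_rw_le Nat.card_pos (fA_pow Fr (ρ k)) x).trans
    (Finset.single_le_sum (f := fun j => (Module.finrank ℂ (Fin (n j) → ℂ) : ℝ))
      (fun j _ => by positivity) (Finset.mem_univ k))

/-- the sum of a class in terms of the twists -/
theorem class_expand (E : LData q B δ β N) (h : IsComplete ρ) (Fr : P → G) (g : G) (s₀ γ : ℝ)
    {T : ℝ} (hT : 0 < T) : wsum q B (kw Fr g) s₀ γ T = ((Nat.card G : ℝ)⁻¹ : ℝ) *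
      ∑ k, (((ρ k).character g).re : ℂ) * wsum q B (rw' (fA Fr (ρ k))) s₀ γ T := by
  refine wsum_comb E _ _ (fun k => rw' (fA Fr (ρ k))) (abs_rw_le' Fr) (fun x => ?_) s₀ γ hT
  unfold kw
  rw [cw_expand h]
  congr 1
  exact Finset.sum_congr rfl fun k _ => by rw [rw_fA]

/-- the sum of a twist in terms of the classes -/
theorem twist_expand (E : LData q B δ β N) (Fr : P → G) {m : ℕ}
    (σ : Representation ℂ G (Fin m → ℂ)) (s₀ γ : ℝ) {T : ℝ} (hT : 0 < T) :
    wsum q B (rw' (fA Fr σ)) s₀ γ T = ((1 : ℝ) : ℂ) *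
      ∑ g, ((σ.character g).re : ℂ) * wsum q B (kw Fr g) s₀ γ T := by
  refine wsum_comb E _ _ (fun g => kw Fr g) (abs_kw_le Fr) (fun x => ?_) s₀ γ hT
  rw [one_mul, rw_fA]
  unfold kw
  exact (mean_cw' (fun g => (σ.character g).re) (fun x y => by
    rw [Representation.char_conj]) (fun x => by rw [char_inv, Complex.conj_re]) _).symm

/-- **The law for a class.** -/
theorem classlaw [Countable P] (E : LData q B δ β N) (h : IsComplete ρ) (Fr : P → G)
    {F : κ → ℂ → ℂ} {s₀ : ℝ} {σ₁ : κ → ℝ}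
    (hmer : ∀ k, ∀ x : ℝ, s₀ ≤ x → MeromorphicAt (F k) (x : ℂ))
    (hF : ∀ k, ∀ s : ℂ, σ₁ k < s.re → F k s =
      ∏' v, (tw (B v) (fA Fr (ρ k) v) ((q v : ℂ) ^ (-s)))⁻¹) :
    ∃ m : κ → ℤ, (∀ k, {σ : ℝ | s₀ ≤ σ ∧ meromorphicOrderAt (F k) (σ : ℂ) ≠ 0}.Finite ∧
        meromorphicOrderAt (F k) (s₀ : ℂ) = m k ∧
        meromorphicTrailingCoeffAt (F k) (s₀ : ℂ) ≠ 0) ∧
      ∀ γ : ℝ, Real.pi / 2 < γ →
        (∀ k, (fun T : ℝ => wsum q B (rw' (fA Fr (ρ k))) s₀ γ T - (m k * (Real.log T - Lam γ) -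
          Real.log ‖meromorphicTrailingCoeffAt (F k) (s₀ : ℂ)‖ +
          Real.pi * excess (F k) s₀ * Complex.I)) =O[atTop] (fun T : ℝ => 1 / T)) ∧
        ∀ g, (fun T : ℝ => wsum q B (kw Fr g) s₀ γ T - ((Nat.card G : ℝ)⁻¹ : ℝ) *
          ∑ k, (((ρ k).character g).re : ℂ) * (m k * (Real.log T - Lam γ) -
          Real.log ‖meromorphicTrailingCoeffAt (F k) (s₀ : ℂ)‖ +
          Real.pi * excess (F k) s₀ * Complex.I)) =O[atTop] (fun T : ℝ => 1 / T) := by
  have h1 := fun k => twlaw E (Nat.card_pos (α := G)) (fA_pow Fr (ρ k)) (hmer k) (hF k)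
    (show Real.pi / 2 < Real.pi by linarith [Real.pi_pos])
  choose hfin m hm hl _ using h1
  refine ⟨m, fun k => ⟨hfin k, hm k, hl k⟩, fun γ hγ => ?_⟩
  have h2 : ∀ k, (fun T : ℝ => wsum q B (rw' (fA Fr (ρ k))) s₀ γ T -
      (m k * (Real.log T - Lam γ) -
        Real.log ‖meromorphicTrailingCoeffAt (F k) (s₀ : ℂ)‖ +
        Real.pi * excess (F k) s₀ * Complex.I)) =O[atTop] (fun T : ℝ => 1 / T) := by
    intro k
    obtain ⟨-, m', hm', -, h3⟩ := twlaw E (Nat.card_pos (α := G)) (fA_pow Fr (ρ k)) (hmer k)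
      (hF k) hγ
    have e1 : m' = m k := by
      rw [hm k] at hm'
      exact_mod_cast hm'.symm
    rw [e1] at h3
    exact h3
  refine ⟨h2, fun g => ?_⟩
  have h3 := (Asymptotics.IsBigO.sum (s := Finset.univ) fun k _ =>
    (h2 k).const_mul_left (((ρ k).character g).re : ℂ)).const_mul_left
      (((Nat.card G : ℝ)⁻¹ : ℝ) : ℂ)
  refine h3.congr' ?_ (EventuallyEq.refl _ _)
  filter_upwards [eventually_gt_atTop 0] with T hT
  rw [class_expand E h Fr g s₀ γ hT, ← mul_sub, ← Finset.sum_sub_distrib, Finset.sum_apply]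
  congr 1
  exact Finset.sum_congr rfl fun k _ => by ring

variable {V : Type} [AddCommGroup V] [Module ℚ V] [FiniteDimensional ℚ V]

/-- **The orders are the multiplicities of `V` if and only if the limits of the classes are the
characters of `V`.** -/
theorem equiv_lim (E : LData q B δ β N) (h : IsComplete ρ) (Fr : P → G)
    (V' : Representation ℚ G V) (m : κ → ℤ) (s₀ γ : ℝ)
    (h1 : ∀ k, Tendsto (fun T : ℝ => wsum q B (rw' (fA Fr (ρ k))) s₀ γ T / Real.log T) atTop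
      (𝓝 (m k : ℂ)))
    (h2 : ∀ g, Tendsto (fun T : ℝ => wsum q B (kw Fr g) s₀ γ T / Real.log T) atTop
      (𝓝 (((Nat.card G : ℝ)⁻¹ * ∑ k, ((ρ k).character g).re * m k : ℝ) : ℂ))) :
    (∀ k, (m k : ℂ) = inner V' (ρ k)) ↔
      ∀ g, Tendsto (fun T : ℝ => wsum q B (kw Fr g) s₀ γ T / Real.log T) atTop
        (𝓝 (((V'.character g : ℚ) : ℂ) / Nat.card G)) := by
  have h0 : (Nat.card G : ℂ) ≠ 0 := card_ne
  constructor
  · intro hm g
    have h3 := h2 g
    have h4 : (((Nat.card G : ℝ)⁻¹ * ∑ k, ((ρ k).character g).re * m k : ℝ) : ℂ) =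
        ((V'.character g : ℚ) : ℂ) / Nat.card G := by
      have h5 := v_expand h V' g
      have h6 : ((V'.character g : ℚ) : ℝ) = ∑ k, ((ρ k).character g).re * m k := by
        have h7 := congrArg Complex.re h5
        rw [Complex.ratCast_re, Complex.re_sum] at h7
        rw [h7]
        refine Finset.sum_congr rfl fun k _ => ?_
        rw [← hm k, ← Complex.ofReal_intCast, Complex.re_ofReal_mul, mul_comm]
      rw [← h6]
      push_cast
      field_simp
    rw [h4] at h3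
    exact h3
  · intro hg k
    have h3 : Tendsto (fun T : ℝ => ((1 : ℝ) : ℂ) * ∑ g, (((ρ k).character g).re : ℂ) *
        (wsum q B (kw Fr g) s₀ γ T / Real.log T)) atTop
        (𝓝 (((1 : ℝ) : ℂ) * ∑ g, (((ρ k).character g).re : ℂ) *
          (((V'.character g : ℚ) : ℂ) / Nat.card G))) :=
      (tendsto_finsetSum _ fun g _ => (hg g).const_mul _).const_mul _
    have h4 := h1 k
    have h5 : (fun T : ℝ => ((1 : ℝ) : ℂ) * ∑ g, (((ρ k).character g).re : ℂ) *
        (wsum q B (kw Fr g) s₀ γ T / Real.log T)) =ᶠ[atTop]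
        fun T : ℝ => wsum q B (rw' (fA Fr (ρ k))) s₀ γ T / Real.log T := by
      filter_upwards [eventually_gt_atTop 0] with T hT
      rw [twist_expand E Fr (ρ k) s₀ γ hT, mul_div_assoc, Finset.sum_div]
      congr 1
      exact Finset.sum_congr rfl fun g _ => by rw [mul_div_assoc]
    have h6 := tendsto_nhds_unique h4 (h3.congr' h5)
    rw [h6, inner_re]
    push_cast
    rw [one_mul, Finset.mul_sum]
    refine Finset.sum_congr rfl fun g _ => ?_
    field_simp

end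

end Pool.Agent.TH652.ART
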