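import Pool.Agent.TH652.ART.Main

/-! Frobenius classes in Galois extensions of number fields. -/

set_option autoImplicit false

namespace Pool.Agent.TH652.ART

open NumberField IsDedekindDomain Filter Topology Polynomial
open Pool.Agent.TH652.COL

variable {K : Type} [Field K] [NumberField K] {l : ℕ}

/-- Outside the finite set `S` of primes `B_v` is the Euler factor of `L(H^i(X), s)`:
`B_v(z) = ∏ (1 - α_j z)` for the Frobenius eigenvalues `α_1, …, α_N` on `H^i(X)`. -/
def IsEulerFamily (X : Set (MvPolynomial (Fin l) (𝓞 K))) (d i N : ℕ)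
    (S : Finset (HeightOneSpectrum (𝓞 K))) (B : HeightOneSpectrum (𝓞 K) → ℝ[X]) : Prop :=
  ∀ v ∉ S, ∃ α : Fin N → ℂ, IsFrobenius X d i v α ∧
    ∀ z : ℂ, ((B v).map (algebraMap ℝ ℂ)).eval z = ∏ j, (1 - α j * z)

open Classical in
/-- the Euler factors outside `S` -/
noncomputable def bS (S : Finset (HeightOneSpectrum (𝓞 K)))
    (B : HeightOneSpectrum (𝓞 K) → ℝ[X]) (v : HeightOneSpectrum (𝓞 K)) : ℝ[X] :=
  if v ∈ S then 1 else B v

theorem ldataS {X : Set (MvPolynomial (Fin l) (𝓞 K))} {d i N : ℕ}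
    {S : Finset (HeightOneSpectrum (𝓞 K))} {B : HeightOneSpectrum (𝓞 K) → ℝ[X]}
    (hB : IsEulerFamily X d i N S B) : LData nv (bS S B) 1 ((i : ℝ) / 2) N where
  two_le := two_le_nv
  δ_nonneg := zero_le_one
  sum := fun σ hσ => Pool.Agent.H921R2.TatePole.nm_summable hσ
  const := fun v => by
    unfold bS
    by_cases hv : v ∈ S
    · rw [if_pos hv]
      simp
    · rw [if_neg hv]
      obtain ⟨α, -, h2⟩ := hB v hv
      have h3 := h2 0
      rw [← Polynomial.coeff_zero_eq_eval_zero, Polynomial.coeff_map] at h3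
      simp only [mul_zero, sub_zero, Finset.prod_const_one] at h3
      have h4 : (((B v).coeff 0 : ℝ) : ℂ) = 1 := h3
      exact_mod_cast h4
  deg := fun v => by
    unfold bS
    by_cases hv : v ∈ S
    · rw [if_pos hv]
      simp
    · rw [if_neg hv]
      obtain ⟨α, -, h2⟩ := hB v hv
      exact good_deg h2
  root := fun v z hz => by
    unfold bS at hz
    by_cases hv : v ∈ S
    · rw [if_pos hv] at hz
      simp [Polynomial.IsRoot.def] at hz
    · rw [if_neg hv] at hz
      obtain ⟨α, h1, h2⟩ := hB v hv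
      exact good_root h1 h2 hz

theorem pw_one (k : ℕ) : pw (1 : ℝ[X]) k = 0 := by
  unfold pw
  simp

theorem tw_one {V : Type} [AddCommGroup V] [Module ℂ V] (A : Module.End ℂ V) (z : ℂ) :
    tw (1 : ℝ[X]) A z = 1 := by
  unfold tw
  simp

end Pool.Agent.TH652.ART
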