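import Pool.Agent.TH652.ART.Wlaw
import Pool.Agent.TH652.ART.Conj
import Pool.Agent.Helper605.TraceR

/-! Euler products twisted by matrices of finite order. -/

set_option autoImplicit false

namespace Pool.Agent.TH652.ART

open Filter Topology Set Polynomial ComplexConjugate
open Pool.Agent.W189.ML Pool.Agent.W189.LC Pool.Agent.W187.UR
open Pool.Agent.TH652.COL

/-- the value at `z` of the twist of the Euler polynomial `B` by the endomorphism `A`: the product of
`det(1 - α z A)` over the inverse roots `α` of `B` -/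
noncomputable def tw (B : ℝ[X]) {V : Type} [AddCommGroup V] [Module ℂ V] (A : Module.End ℂ V)
    (z : ℂ) : ℂ :=
  ((B.map (algebraMap ℝ ℂ)).roots.map fun ρ => LinearMap.det (1 - (ρ⁻¹ * z) • A)).prod

section
variable {V : Type} [AddCommGroup V] [Module ℂ V] [FiniteDimensional ℂ V]

theorem eigs (A : Module.End ℂ V) {N : ℕ} (hN : 0 < N) (hA : A ^ N = 1) :
    ∃ s : Multiset ℂ, s.card = Module.finrank ℂ V ∧ (∀ l ∈ s, ‖l‖ = 1) ∧
      (∀ k, LinearMap.trace ℂ _ (A ^ k) = (s.map fun l => l ^ k).sum) ∧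
      ∀ c : ℂ, LinearMap.det (1 - c • A) = (s.map fun l => 1 - c * l).prod := by
  have hsp : (LinearMap.charpoly A).Splits := IsAlgClosed.splits _
  have hdeg : (LinearMap.charpoly A).natDegree = Module.finrank ℂ V :=
    LinearMap.charpoly_natDegree A
  have hcard : (LinearMap.charpoly A).roots.card = Module.finrank ℂ V := by
    rw [← hsp.natDegree_eq_card_roots, hdeg]
  refine ⟨(LinearMap.charpoly A).roots, hcard, fun l hl => ?_, fun k => ?_, fun c => ?_⟩
  · have h0 : A.HasEigenvalue l := by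
      rw [Module.End.hasEigenvalue_iff_isRoot_charpoly]
      exact (Polynomial.mem_roots'.1 hl).2
    obtain ⟨v, hv⟩ := h0.exists_hasEigenvector
    have h1 := hv.pow_apply N
    rw [hA, Module.End.one_apply] at h1
    have h2 : (l ^ N - 1) • v = 0 := by rw [sub_smul, one_smul, ← h1, sub_self]
    rcases smul_eq_zero.1 h2 with h3 | h3
    · have h4 : l ^ N = 1 := by linear_combination h3
      have h5 : ‖l‖ ^ N = 1 := by rw [← norm_pow, h4, norm_one]
      exact (pow_eq_one_iff_of_nonneg (norm_nonneg _) hN.ne').1 h5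
    · exact absurd h3 hv.2
  · set b := Module.finBasis ℂ V with hb
    have h1 : LinearMap.toMatrix b b (A ^ k) = (LinearMap.toMatrix b b A) ^ k :=
      map_pow (LinearMap.toMatrixAlgEquiv b) A k
    have h2 : LinearMap.trace ℂ _ (A ^ k) = (LinearMap.toMatrix b b (A ^ k)).trace :=
      LinearMap.trace_eq_matrix_trace ℂ b _
    have h3 : (LinearMap.toMatrix b b A).charpoly = LinearMap.charpoly A :=
      LinearMap.charpoly_toMatrix A b
    rw [h2, h1, Pool.Agent.Helper605.trace_pow_roots, h3]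
  · by_cases hc : c = 0
    · subst hc
      simp
    · have h1 : LinearMap.det (1 - c • A) =
          c ^ Module.finrank ℂ V * (LinearMap.charpoly A).eval c⁻¹ := by
        have h2 : (1 - c • A : Module.End ℂ V) = c • (algebraMap ℂ _ c⁻¹ - A) := by
          rw [smul_sub, Algebra.algebraMap_eq_smul_one, smul_smul, mul_inv_cancel₀ hc, one_smul]
        rw [h2, LinearMap.det_smul, LinearMap.eval_charpoly]
      rw [h1, hsp.eval_eq_prod_roots_of_monic (LinearMap.charpoly_monic A)]
      have h3 : ((LinearMap.charpoly A).roots.map fun l => 1 - c * l).prod =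
          ((LinearMap.charpoly A).roots.map fun l => c * (c⁻¹ - l)).prod := by
        refine congrArg _ (Multiset.map_congr rfl fun l _ => ?_)
        rw [mul_sub, mul_inv_cancel₀ hc]
      rw [h3, Multiset.prod_map_mul, Multiset.map_const', Multiset.prod_replicate, hcard]

theorem bind_pow (R E : Multiset ℂ) (k : ℕ) :
    ((R.bind fun a => E.map fun l => a * l).map fun x => x ^ k).sum =
      (R.map fun a => a ^ k).sum * (E.map fun l => l ^ k).sum := by
  induction R using Multiset.induction_on with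
  | empty => simp
  | cons a R ih =>
    rw [Multiset.cons_bind, Multiset.map_add, Multiset.sum_add, ih, Multiset.map_cons,
      Multiset.sum_cons, add_mul, Multiset.map_map]
    congr 1
    rw [← Multiset.sum_map_mul_left]
    refine congrArg _ (Multiset.map_congr rfl fun l _ => ?_)
    simp [mul_pow]

theorem bind_prod (R E : Multiset ℂ) (z : ℂ) :
    ((R.bind fun a => E.map fun l => a * l).map fun x => 1 - x * z).prod =
      (R.map fun a => (E.map fun l => 1 - (a * z) * l).prod).prod := by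
  induction R using Multiset.induction_on with
  | empty => simp
  | cons a R ih =>
    rw [Multiset.cons_bind, Multiset.map_add, Multiset.prod_add, ih, Multiset.map_cons,
      Multiset.prod_cons, Multiset.map_map]
    congr 1
    refine congrArg _ (Multiset.map_congr rfl fun l _ => ?_)
    simp only [Function.comp]
    ring

/-- bound for the traces -/
theorem norm_trace_le (A : Module.End ℂ V) {N : ℕ} (hN : 0 < N)
    (hA : A ^ N = 1) (k : ℕ) : ‖LinearMap.trace ℂ _ (A ^ k)‖ ≤ Module.finrank ℂ V := by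
  obtain ⟨s, h1, h2, h3, -⟩ := eigs A hN hA
  rw [h3, ← h1]
  clear h1 h3
  induction s using Multiset.induction_on with
  | empty => simp
  | cons a s ih =>
    have h4 := ih fun b hb => h2 b (Multiset.mem_cons_of_mem hb)
    rw [Multiset.map_cons, Multiset.sum_cons, Multiset.card_cons]
    have h5 : ‖a ^ k‖ = 1 := by rw [norm_pow, h2 a (Multiset.mem_cons_self a s), one_pow]
    have h6 := norm_add_le (a ^ k) ((s.map fun l => l ^ k).sum)
    push_cast
    linarith

/-- **the twisted Euler factor as the exponential of the power sums** -/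
theorem tw_factor (B : ℝ[X]) (A : Module.End ℂ V) {N : ℕ}
    (hN : 0 < N) (hA : A ^ N = 1) {z : ℂ}
    (hz : ∀ ρ : ℂ, (B.map (algebraMap ℝ ℂ)).IsRoot ρ → ‖z‖ < ‖ρ‖) :
    HasSum (fun n : ℕ => LinearMap.trace ℂ _ (A ^ (n + 1)) *
        ((pw B (n + 1) : ℂ) * z ^ (n + 1) / ((n + 1 : ℕ) : ℂ)))
      (∑' n : ℕ, LinearMap.trace ℂ _ (A ^ (n + 1)) *
        ((pw B (n + 1) : ℂ) * z ^ (n + 1) / ((n + 1 : ℕ) : ℂ))) ∧
    Complex.exp (∑' n : ℕ, LinearMap.trace ℂ _ (A ^ (n + 1)) *
        ((pw B (n + 1) : ℂ) * z ^ (n + 1) / ((n + 1 : ℕ) : ℂ))) = (tw B A z)⁻¹ := by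
  obtain ⟨s, -, h2, h3, h4⟩ := eigs A hN hA
  set p := B.map (algebraMap ℝ ℂ) with hp
  have h1 := multiset_log ((p.roots.map fun ρ => ρ⁻¹).bind fun a => s.map fun l => a * l) z (by
    intro a ha
    obtain ⟨b, hb, hb2⟩ := Multiset.mem_bind.1 ha
    obtain ⟨l, hl, rfl⟩ := Multiset.mem_map.1 hb2
    obtain ⟨ρ, hρ, rfl⟩ := Multiset.mem_map.1 hb
    have h5 := hz ρ (Polynomial.isRoot_of_mem_roots hρ)
    have h6 : 0 < ‖ρ‖ := lt_of_le_of_lt (norm_nonneg _) h5
    rw [norm_mul, norm_mul, h2 l hl, mul_one, norm_inv, inv_mul_lt_one₀ h6]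
    exact h5)
  rw [bind_prod] at h1
  simp only [bind_pow] at h1
  have h5 : ∀ n : ℕ, LinearMap.trace ℂ _ (A ^ (n + 1)) *
      ((pw B (n + 1) : ℂ) * z ^ (n + 1) / ((n + 1 : ℕ) : ℂ)) =
      ((p.roots.map fun ρ => ρ⁻¹).map fun a => a ^ (n + 1)).sum *
        (s.map fun l => l ^ (n + 1)).sum * z ^ (n + 1) / ((n + 1 : ℕ) : ℂ) := by
    intro n
    rw [h3, pw_eq, Multiset.map_map]
    simp only [Function.comp_def]
    ring
  simp only [h5]
  refine ⟨h1.1.summable.hasSum, ?_⟩
  rw [h1.1.tsum_eq, h1.2]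
  congr 1
  unfold tw
  rw [Multiset.map_map]
  refine congrArg _ (Multiset.map_congr rfl fun ρ _ => ?_)
  simp only [Function.comp_def]
  rw [h4]

end

variable {P : Type} {q : P → ℝ} {B : P → ℝ[X]} {δ β : ℝ} {N : ℕ} {V : Type} [AddCommGroup V]
  [Module ℂ V]

/-- the trace of the power -/
noncomputable def tr (A : P → Module.End ℂ V) (x : P × ℕ) : ℂ :=
  LinearMap.trace ℂ _ (A x.1 ^ (x.2 + 1))

/-- the term of the logarithm of the Euler product -/
noncomputable def lt (q : P → ℝ) (B : P → ℝ[X]) (s : ℂ) (x : P × ℕ) : ℂ :=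
  (pw (B x.1) (x.2 + 1) : ℂ) * ((q x.1 : ℂ) ^ (-s)) ^ (x.2 + 1) / ((x.2 + 1 : ℕ) : ℂ)

theorem lt_summable (E : LData q B δ β N) {s : ℂ} (hs : δ + β < s.re) :
    Summable fun x => ‖lt q B s x‖ := by
  have h1 := E.summable (D := 1) (σ := s.re) (s₀ := 0) (by linarith)
  refine h1.congr fun x => ?_
  have h2 := wcoef_eq E (fun _ => 1) 0 1 s x
  simp only [mul_one, Complex.ofReal_one, one_mul, Complex.ofReal_zero, zero_add] at h2
  unfold lt
  rw [← h2, norm_mul, Complex.norm_real, Real.norm_eq_abs, Complex.norm_exp]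
  congr 2
  rw [Complex.neg_re, Complex.re_mul_ofReal]

theorem tlt_summable (E : LData q B δ β N) {c : P × ℕ → ℂ} {W : ℝ} (hc : ∀ x, ‖c x‖ ≤ W) {s : ℂ}
    (hs : δ + β < s.re) : Summable fun x => c x * lt q B s x := by
  refine Summable.of_norm_bounded ((lt_summable E hs).mul_left W) fun x => ?_
  rw [norm_mul]
  exact mul_le_mul_of_nonneg_right (hc x) (norm_nonneg _)

/-- **the twisted Euler product is the exponential of a series** -/
theorem tw_hasProd [FiniteDimensional ℂ V] (E : LData q B δ β N) {M : ℕ} (hM : 0 < M)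
    {A : P → Module.End ℂ V} (hA : ∀ v, A v ^ M = 1) {s : ℂ} (hs : δ + β < s.re) :
    HasProd (fun v => (tw (B v) (A v) ((q v : ℂ) ^ (-s)))⁻¹)
      (Complex.exp (∑' x, tr A x * lt q B s x)) := by
  have h0 : β < s.re := by
    have := E.δ_nonneg
    linarith
  have hz : ∀ v, ∀ ρ : ℂ, ((B v).map (algebraMap ℝ ℂ)).IsRoot ρ → ‖(q v : ℂ) ^ (-s)‖ < ‖ρ‖ := by
    intro v ρ hρ
    refine lt_of_lt_of_le ?_ (E.root v ρ hρ)
    rw [Complex.norm_cpow_eq_rpow_re_of_pos (E.pos v), Complex.neg_re]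
    exact Real.rpow_lt_rpow_of_exponent_lt (by linarith [E.two_le v]) (by linarith)
  have h1 := (tlt_summable E (c := tr A) (W := Module.finrank ℂ V) (fun x => norm_trace_le (A x.1) hM (hA x.1) _)
    hs).hasSum
  have h2 := h1.prod_fiberwise (g := fun v => ∑' n : ℕ, LinearMap.trace ℂ _ (A v ^ (n + 1)) *
        ((pw (B v) (n + 1) : ℂ) * ((q v : ℂ) ^ (-s)) ^ (n + 1) / ((n + 1 : ℕ) : ℂ)))
    (fun v => (tw_factor (B v) (A v) hM (hA v) (hz v)).1)
  have h3 := h2.cexp
  refine h3.congr_fun fun v => ?_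
  exact ((tw_factor (B v) (A v) hM (hA v) (hz v)).2).symm

end Pool.Agent.TH652.ART
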