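import Pool.Agent.TH652.COL.Law

/-! The law for sums over the prime powers with bounded real weights. -/

set_option autoImplicit false

namespace Pool.Agent.TH652.ART

open Filter Topology Set Polynomial
open Pool.Agent.W189.ML Pool.Agent.W189.LC Pool.Agent.W187.UR
open Pool.Agent.TH652.COL

variable {P : Type} {q : P → ℝ} {B : P → ℝ[X]} {δ β : ℝ} {N : ℕ}

/-- the weighted logarithmic series -/
noncomputable def wser (q : P → ℝ) (B : P → ℝ[X]) (w : P × ℕ → ℝ) (s : ℂ) : ℂ :=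
  ∑' x : P × ℕ, (w x : ℂ) * ((pw (B x.1) (x.2 + 1) : ℂ) * ((q x.1 : ℂ) ^ (-s)) ^ (x.2 + 1) /
    ((x.2 + 1 : ℕ) : ℂ))

/-- the weighted rotated sum -/
noncomputable def wsum (q : P → ℝ) (B : P → ℝ[X]) (w : P × ℕ → ℝ) (s₀ γ T : ℝ) : ℂ :=
  ∑' x, (w x : ℂ) * lterm q B s₀ γ T x

theorem wcoef_eq (E : LData q B δ β N) (w : P × ℕ → ℝ) (s₀ D : ℝ) (z : ℂ) (x : P × ℕ) :
    ((cq q B s₀ x * w x : ℝ) : ℂ) * Complex.exp (-(z * fq q D x)) =
      (w x : ℂ) * ((pw (B x.1) (x.2 + 1) : ℂ) *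
        ((q x.1 : ℂ) ^ (-((s₀ : ℂ) + D * z))) ^ (x.2 + 1) / ((x.2 + 1 : ℕ) : ℂ)) := by
  have hq := E.pos x.1
  have hqc : (q x.1 : ℂ) ≠ 0 := by exact_mod_cast hq.ne'
  have e1 : ((q x.1 : ℂ) ^ (-((s₀ : ℂ) + D * z))) ^ (x.2 + 1) =
      (((q x.1 : ℝ) ^ (-(((x.2 : ℝ) + 1) * s₀)) : ℝ) : ℂ) *
        Complex.exp (-(z * fq q D x)) := by
    rw [Complex.cpow_def_of_ne_zero hqc, ← Complex.exp_nat_mul, Real.rpow_def_of_pos hq,
      Complex.ofReal_exp, ← Complex.exp_add]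
    congr 1
    unfold fq
    rw [← Complex.ofReal_log hq.le]
    push_cast
    ring
  rw [e1]
  unfold cq
  push_cast
  ring

theorem wser_eq (E : LData q B δ β N) (w : P × ℕ → ℝ) (s₀ D : ℝ) (z : ℂ) :
    ser (fq q D) (fun x => cq q B s₀ x * w x) z = wser q B w (s₀ + D * z) := by
  unfold ser wser
  exact tsum_congr fun x => wcoef_eq E w s₀ D z x

theorem wmdata (E : LData q B δ β N) {w : P × ℕ → ℝ} {W : ℝ} (hw : ∀ x, |w x| ≤ W)
    {F : ℂ → ℂ} {s₀ σ₁ D : ℝ} (hD : 0 < D)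
    (hD1 : β + δ ≤ s₀ + D) (hD2 : σ₁ ≤ s₀ + D)
    (hmer : ∀ x : ℝ, s₀ ≤ x → MeromorphicAt F (x : ℂ))
    (hF : ∀ s : ℂ, σ₁ < s.re → F s = Complex.exp (wser q B w s)) :
    MData (fq q D) (fun x => cq q B s₀ x * w x) (fun z => F (s₀ + D * z)) where
  lam_pos := E.fq_nonneg hD.le
  sum := fun σ hσ => by
    have h1 : Summable fun x => |cq q B s₀ x| * Real.exp (-(σ * fq q D x)) :=
      E.summable (by nlinarith)
    refine Summable.of_nonneg_of_le (fun x => by positivity) (fun x => ?_) (h1.mul_left W)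
    rw [abs_mul]
    have h2 : 0 ≤ |cq q B s₀ x| * Real.exp (-(σ * fq q D x)) := by positivity
    calc |cq q B s₀ x| * |w x| * Real.exp (-(σ * fq q D x)) =
        |w x| * (|cq q B s₀ x| * Real.exp (-(σ * fq q D x))) := by ring
      _ ≤ W * (|cq q B s₀ x| * Real.exp (-(σ * fq q D x))) :=
        mul_le_mul_of_nonneg_right (hw x) h2
  mero := fun x hx => by
    have h1 := hmer (s₀ + D * x) (by
      have : 0 ≤ D * x := mul_nonneg hD.le hx.1
      linarith)
    push_cast at h1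
    exact MeromorphicAt.comp_analyticAt (g := fun w : ℂ => (s₀ : ℂ) + D * w) h1 (by fun_prop)
  eq := fun z hz => by
    have h1 : σ₁ < ((s₀ : ℂ) + D * z).re := by
      have : ((s₀ : ℂ) + D * z).re = s₀ + D * z.re := by simp
      rw [this]
      nlinarith
    rw [hF _ h1, wser_eq E]

theorem wsum_eq (w : P × ℕ → ℝ) {s₀ γ T D : ℝ} (hD : 0 < D) :
    wsum q B w s₀ γ T = -cmean (fq q D) (fun x => cq q B s₀ x * w x) γ (D * T) := by
  unfold wsum cmean
  rw [← tsum_neg]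
  refine tsum_congr fun x => ?_
  rw [lterm_eq q B hD x]
  push_cast
  ring

theorem wsummable (E : LData q B δ β N) {w : P × ℕ → ℝ} {W : ℝ} (hw : ∀ x, |w x| ≤ W) (s₀ γ : ℝ)
    {T : ℝ} (hT : 0 < T) : Summable fun x => (w x : ℂ) * lterm q B s₀ γ T x := by
  refine Summable.of_norm_bounded ((E.lsummable s₀ γ hT).mul_left W) fun x => ?_
  rw [norm_mul, Complex.norm_real, Real.norm_eq_abs]
  exact mul_le_mul_of_nonneg_right (hw x) (norm_nonneg _)

/-- **the law** -/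
theorem wlaw [Countable P] (E : LData q B δ β N) {w : P × ℕ → ℝ} {W : ℝ}
    (hw : ∀ x, |w x| ≤ W) {F : ℂ → ℂ} {s₀ σ₁ : ℝ}
    (hmer : ∀ x : ℝ, s₀ ≤ x → MeromorphicAt F (x : ℂ))
    (hF : ∀ s : ℂ, σ₁ < s.re → F s = Complex.exp (wser q B w s)) {γ : ℝ} (hγ : Real.pi / 2 < γ) :
    {σ : ℝ | s₀ ≤ σ ∧ meromorphicOrderAt F (σ : ℂ) ≠ 0}.Finite ∧
    ∃ (m : ℤ) (l : ℝ), meromorphicOrderAt F (s₀ : ℂ) = m ∧
      meromorphicTrailingCoeffAt F (s₀ : ℂ) = l ∧ l ≠ 0 ∧
      (fun T : ℝ => wsum q B w s₀ γ T - (m * (Real.log T - Lam γ) - Real.log |l| +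
        Real.pi * excess F s₀ * Complex.I)) =O[atTop] (fun T : ℝ => 1 / T) := by
  set D : ℝ := |β + δ - s₀| + |σ₁ - s₀| + 1 with hDdef
  have hD0 : 0 < D := by positivity
  have hD1 : β + δ ≤ s₀ + D := by
    have h1 := le_abs_self (β + δ - s₀)
    have h2 := abs_nonneg (σ₁ - s₀)
    rw [hDdef]
    linarith
  have hD2 : σ₁ ≤ s₀ + D := by
    have h1 := le_abs_self (σ₁ - s₀)
    have h2 := abs_nonneg (β + δ - s₀)
    rw [hDdef]
    linarith
  have M := wmdata E hw hD0 hD1 hD2 hmer hF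
  have hright : ∀ σ : ℝ, s₀ + D < σ → meromorphicOrderAt F (σ : ℂ) = 0 := by
    intro σ hσ
    have h1 := M.order_right (w := (((σ - s₀) / D : ℝ) : ℂ)) (by
      rw [Complex.ofReal_re, one_lt_div hD0]
      linarith)
    rw [order_scale F hD0.ne'] at h1
    have h2 : s₀ + D * ((σ - s₀) / D) = σ := by
      field_simp
      ring
    rwa [h2] at h1
  have hfin : {σ : ℝ | s₀ ≤ σ ∧ meromorphicOrderAt F (σ : ℂ) ≠ 0}.Finite := by
    refine (M.finite_zeros.image fun x : ℝ => s₀ + D * x).subset ?_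
    rintro σ ⟨h1, h2⟩
    refine ⟨(σ - s₀) / D, ⟨⟨div_nonneg (by linarith) hD0.le, ?_⟩, ?_⟩, ?_⟩
    · rw [div_le_iff₀ hD0]
      by_contra h3
      push Not at h3
      exact h2 (hright σ (by linarith))
    · rw [order_scale F hD0.ne']
      have h3 : s₀ + D * ((σ - s₀) / D) = σ := by
        field_simp
        ring
      rwa [h3]
    · simp only
      field_simp
      ring
  refine ⟨hfin, ?_⟩
  have htop := M.order_ne_top (x := 0) ⟨le_rfl, by norm_num⟩
  rw [order_scale F hD0.ne', mul_zero, add_zero] at htop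
  obtain ⟨m, hm⟩ := WithTop.ne_top_iff_exists.1 htop
  have hm0 : meromorphicOrderAt (fun w : ℂ => F (s₀ + D * w)) 0 = m := by
    have := order_scale F (s₀ := s₀) hD0.ne' 0
    rw [mul_zero, add_zero, Complex.ofReal_zero] at this
    rw [this]
    exact hm.symm
  obtain ⟨r₁, C, T₀, hr, hi, hC, hT₀, h⟩ := mdata_rot M hm0 hγ
  rw [coeff_scale hD0.ne' (hmer s₀ le_rfl) hm.symm] at hr
  rw [excess_eq hD0 hright] at hi
  have hDc : (D : ℂ) ≠ 0 := by exact_mod_cast hD0.ne'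
  -- remove the scale
  set r₀ : ℂ := r₁ - m * Real.log D with hr₀def
  have hpow : (D : ℂ) ^ m = Complex.exp (m * Real.log D) := by
    rw [Complex.exp_int_mul, ← Complex.ofReal_exp, Real.exp_log hD0]
  have hr' : Complex.exp r₀ = meromorphicTrailingCoeffAt F (s₀ : ℂ) := by
    rw [hr₀def, Complex.exp_sub, hr, ← hpow]
    exact mul_div_cancel_left₀ _ (zpow_ne_zero _ hDc)
  have hi' : r₀.im = -Real.pi * excess F s₀ := by
    rw [hr₀def, Complex.sub_im, hi]
    have : ((m : ℂ) * Real.log D).im = 0 := by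
      have h1 : ((m : ℂ) * Real.log D) = ((m * Real.log D : ℝ) : ℂ) := by push_cast; rfl
      rw [h1, Complex.ofReal_im]
    rw [this]
    ring
  set l : ℂ := meromorphicTrailingCoeffAt F (s₀ : ℂ) with hl
  have hl0 : l ≠ 0 := by rw [← hr']; exact Complex.exp_ne_zero _
  have hlr : l = (((-1 : ℝ) ^ (excess F s₀) * Real.exp r₀.re : ℝ) : ℂ) := by
    have h1 : r₀ = (r₀.re : ℂ) + (excess F s₀ : ℂ) * (-(Real.pi * Complex.I)) := by
      apply Complex.ext
      · simp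
      · rw [hi']; simp; ring
    rw [← hr']
    nth_rewrite 1 [h1]
    rw [Complex.exp_add, Complex.exp_int_mul, Complex.exp_neg, Complex.exp_pi_mul_I]
    push_cast
    norm_num
    ring
  have hlre : l = ((l.re : ℝ) : ℂ) := by
    rw [hlr, Complex.ofReal_re]
  have hlabs : Real.log |l.re| = r₀.re := by
    have h1 : |l.re| = Real.exp r₀.re := by
      rw [hlr, Complex.ofReal_re, abs_mul, Real.abs_exp]
      have : |(-1 : ℝ) ^ (excess F s₀)| = 1 := by
        rw [abs_zpow]; simp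
      rw [this, one_mul]
    rw [h1, Real.log_exp]
  have hlre0 : l.re ≠ 0 := by
    intro h1
    rw [h1, Complex.ofReal_zero] at hlre
    exact hl0 hlre
  have hr₀ : -r₀ = -(Real.log |l.re| : ℂ) + Real.pi * excess F s₀ * Complex.I := by
    rw [hlabs]
    apply Complex.ext
    · simp
    · rw [Complex.neg_im, hi']; simp
  have hO : (fun T : ℝ => wsum q B w s₀ γ T - (m * (Real.log T - Lam γ) - r₀)) =O[atTop]
      (fun T : ℝ => 1 / T) := by
    refine Asymptotics.IsBigO.of_bound (C / D) ?_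
    filter_upwards [eventually_ge_atTop (T₀ / D), eventually_gt_atTop 0] with T hT hT1
    have hT2 : T₀ ≤ D * T := by
      rw [div_le_iff₀ hD0] at hT
      linarith [mul_comm D T]
    have h5 := h (D * T) hT2
    rw [wsum_eq w hD0, Real.norm_eq_abs, abs_of_pos (by positivity : 0 < 1 / T)]
    have h6 : (m : ℂ) * (Real.log (D * T) - Lam γ) - r₁ = m * (Real.log T - Lam γ) - r₀ := by
      rw [Real.log_mul hD0.ne' hT1.ne', hr₀def]
      push_cast
      ring
    rw [h6] at h5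
    refine h5.trans (le_of_eq ?_)
    field_simp
  refine ⟨m, l.re, hm.symm, hlre, hlre0, ?_⟩
  refine hO.congr_left fun T => ?_
  linear_combination (-1 : ℂ) * hr₀


end Pool.Agent.TH652.ART
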